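import Pool.Agent.helper67.KN.Basic

set_option autoImplicit false

namespace Pool.Agent.helper67.KN

open Finset

variable {φ : (V : Type) → [Fintype V] → SimpleGraph V → ℝ}

theorem digits_bound (Q : ℤ) (n : ℕ) : ∀ (d : Fin n → ℤ), (∀ c, |d c| < Q) →
    |∑ c : Fin n, Q ^ (c : ℕ) * d c| ≤ Q ^ n - 1 := by
  induction n with
  | zero => intro d _; simp
  | succ n ih =>
    intro d hd
    have h1 := ih (fun c => d c.succ) (fun c => hd _)
    have h0 := hd 0
    have hQ : 0 < Q := (abs_nonneg _).trans_lt h0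
    rw [Fin.sum_univ_succ]
    have h2 : ∑ c : Fin n, Q ^ ((c.succ : Fin (n + 1)) : ℕ) * d c.succ =
        Q * ∑ c : Fin n, Q ^ (c : ℕ) * d c.succ := by
      rw [Finset.mul_sum]
      refine Finset.sum_congr rfl (fun c _ => ?_)
      rw [Fin.val_succ, pow_succ]; ring
    rw [h2]
    simp only [Fin.val_zero, pow_zero, one_mul]
    refine (abs_add_le _ _).trans ?_
    rw [abs_mul, abs_of_pos hQ, pow_succ]
    have h3 : |d 0| ≤ Q - 1 := by omega
    nlinarith

theorem digits_zero (Q : ℤ) (n : ℕ) : ∀ (d : Fin n → ℤ), (∀ c, |d c| < Q) →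
    ∑ c : Fin n, Q ^ (c : ℕ) * d c = 0 → ∀ c, d c = 0 := by
  induction n with
  | zero => intro d _ _ c; exact Fin.elim0 c
  | succ n ih =>
    intro d hd hs
    have h0 := hd 0
    have hQ : 0 < Q := (abs_nonneg _).trans_lt h0
    rw [Fin.sum_univ_succ] at hs
    have h2 : ∑ c : Fin n, Q ^ ((c.succ : Fin (n + 1)) : ℕ) * d c.succ =
        Q * ∑ c : Fin n, Q ^ (c : ℕ) * d c.succ := by
      rw [Finset.mul_sum]
      refine Finset.sum_congr rfl (fun c _ => ?_)
      rw [Fin.val_succ, pow_succ]; ring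
    rw [h2] at hs
    simp only [Fin.val_zero, pow_zero, one_mul] at hs
    have hdvd : Q ∣ d 0 := ⟨-∑ c : Fin n, Q ^ (c : ℕ) * d c.succ, by linarith⟩
    have h00 : d 0 = 0 := Int.eq_zero_of_abs_lt_dvd hdvd h0
    rw [h00, zero_add] at hs
    have hs' : ∑ c : Fin n, Q ^ (c : ℕ) * d c.succ = 0 := by
      rcases mul_eq_zero.1 hs with h | h
      · omega
      · exact h
    have h5 := ih (fun c => d c.succ) (fun c => hd _) hs'
    intro c
    refine Fin.cases h00 (fun j => h5 j) c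

/-- cyclic interval -/
def arc (s q : ℕ) (hs : 0 < s) (i : ℕ) : Finset (Fin s) :=
  (Finset.range q).image (fun t => (⟨(i + t) % s, Nat.mod_lt _ hs⟩ : Fin s))

theorem arc_card (s q : ℕ) (hs : 0 < s) (hqs : q ≤ s) (i : ℕ) : (arc s q hs i).card = q := by
  rw [arc, Finset.card_image_of_injOn, Finset.card_range]
  intro t ht u hu htu
  simp only [Finset.coe_range, Set.mem_Iio] at ht hu
  have h1 : (i + t) % s = (i + u) % s := congrArg Fin.val htu
  have h2 : i + t ≡ i + u [MOD s] := h1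
  have h3 := Nat.ModEq.add_left_cancel' i h2
  exact Nat.ModEq.eq_of_lt_of_lt h3 (by omega) (by omega)

theorem arc_disjoint (s q : ℕ) (hs : 0 < s) (a b : ℕ) (h1 : a + q ≤ b) (h2 : b + q ≤ a + s) :
    Disjoint (arc s q hs a) (arc s q hs b) := by
  rw [Finset.disjoint_left]
  intro v hv hv'
  rw [arc, Finset.mem_image] at hv hv'
  obtain ⟨t, ht, rfl⟩ := hv
  obtain ⟨u, hu, huv⟩ := hv'
  rw [Finset.mem_range] at ht hu
  have h3 : (b + u) % s = (a + t) % s := congrArg Fin.val huv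
  have h4 : a + t ≡ b + u [MOD s] := h3.symm
  have h5 := (Nat.modEq_iff_dvd' (show a + t ≤ b + u by omega)).1 h4
  have h6 := Nat.le_of_dvd (by omega) h5
  omega

/-- starting positions -/
theorem start_sep (s q Q p₀ i j : ℕ) (hp₀ : 0 < p₀) (hs : q * p₀ ≤ s * Q) (h1 : i + Q ≤ j)
    (h2 : j + Q ≤ i + p₀) :
    i * s / p₀ + q ≤ j * s / p₀ ∧ j * s / p₀ + q ≤ i * s / p₀ + s := by
  set a := i * s / p₀ with ha
  set b := j * s / p₀ with hb
  have ha1 : a * p₀ ≤ i * s := Nat.div_mul_le_self _ _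
  have hb1 : b * p₀ ≤ j * s := Nat.div_mul_le_self _ _
  have ha2 : i * s < (a + 1) * p₀ := by
    rw [mul_comm (a + 1)]; exact Nat.lt_mul_div_succ _ hp₀
  have hb2 : j * s < (b + 1) * p₀ := by
    rw [mul_comm (b + 1)]; exact Nat.lt_mul_div_succ _ hp₀
  have h3 : (i + Q) * s ≤ j * s := Nat.mul_le_mul_right _ h1
  have h4 : (j + Q) * s ≤ (i + p₀) * s := Nat.mul_le_mul_right _ h2
  constructor
  · by_contra hcon
    have h5 : b + 1 ≤ a + q := by omega
    have h6 := Nat.mul_le_mul_right p₀ h5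
    nlinarith
  · by_contra hcon
    have h5 : a + s + 1 ≤ b + q := by omega
    have h6 := Nat.mul_le_mul_right p₀ h5
    nlinarith

/-- if two arcs meet, the indices are close -/
theorem close_of_meet (s q Q p₀ : ℕ) [NeZero p₀] (hs0 : 0 < s) (hQ : 1 ≤ Q)
    (hs : q * p₀ ≤ s * Q) (u v : ZMod p₀)
    (h : ¬ Disjoint (arc s q hs0 (u.val * s / p₀)) (arc s q hs0 (v.val * s / p₀))) :
    ∃ d : ℤ, |d| < (Q : ℤ) ∧ (d : ZMod p₀) = u - v := by
  have hp₀ : 0 < p₀ := Nat.pos_of_ne_zero (NeZero.ne _)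
  have hu : ((u.val : ℤ) : ZMod p₀) = u := by
    rw [Int.cast_natCast, ZMod.natCast_zmod_val]
  have hv : ((v.val : ℤ) : ZMod p₀) = v := by
    rw [Int.cast_natCast, ZMod.natCast_zmod_val]
  have hp : (((p₀ : ℕ) : ℤ) : ZMod p₀) = 0 := by
    rw [Int.cast_natCast, ZMod.natCast_self]
  have hul := ZMod.val_lt u
  have hvl := ZMod.val_lt v
  by_cases h1 : u.val + Q ≤ v.val
  · by_cases h2 : v.val + Q ≤ u.val + p₀
    · exfalso
      obtain ⟨h3, h4⟩ := start_sep s q Q p₀ u.val v.val hp₀ hs h1 h2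
      exact h (arc_disjoint s q hs0 _ _ h3 h4)
    · refine ⟨(u.val : ℤ) - v.val + p₀, ?_, ?_⟩
      · rw [abs_lt]; constructor <;> omega
      · push_cast at hu hv hp ⊢
        rw [hu, hv, hp, add_zero]
  · by_cases h1' : v.val + Q ≤ u.val
    · by_cases h2 : u.val + Q ≤ v.val + p₀
      · exfalso
        obtain ⟨h3, h4⟩ := start_sep s q Q p₀ v.val u.val hp₀ hs h1' h2
        exact h (arc_disjoint s q hs0 _ _ h3 h4).symm
      · refine ⟨(u.val : ℤ) - v.val - p₀, ?_, ?_⟩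
        · rw [abs_lt]; constructor <;> omega
        · push_cast at hu hv hp ⊢
          rw [hu, hv, hp, sub_zero]
    · refine ⟨(u.val : ℤ) - v.val, ?_, ?_⟩
      · rw [abs_lt]; constructor <;> omega
      · push_cast at hu hv ⊢
        rw [hu, hv]

/-- the code -/
theorem code_bound (hφ : IsSpectralPoint φ) (s q Q m : ℕ) (hq : 1 ≤ q) (hQ : 1 ≤ Q)
    (hs : q * (Q ^ (m + 1) + 1) ≤ s * Q) :
    ((Q : ℝ) ^ (m + 1) + 1) ^ m ≤ φ _ (KC s q) ^ (m + 1) := by
  have hQm : Q ≤ Q ^ (m + 1) := by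
    calc Q = Q ^ 1 := (pow_one Q).symm
      _ ≤ Q ^ (m + 1) := Nat.pow_le_pow_right hQ (by omega)
  have hqs : q ≤ s := by
    by_contra hcon
    push Not at hcon
    have h1 : s * Q < q * (Q ^ (m + 1) + 1) := by
      calc s * Q < q * (Q + 1) := by nlinarith
        _ ≤ q * (Q ^ (m + 1) + 1) := Nat.mul_le_mul_left _ (by omega)
    omega
  have hs0 : 0 < s := by omega
  set p₀ : ℕ := Q ^ (m + 1) + 1 with hp₀
  let word : (Fin m → ZMod p₀) → Fin (m + 1) → ZMod p₀ := fun z =>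
    Fin.cons (-∑ c : Fin m, (Q : ZMod p₀) ^ ((c : ℕ) + 1) * z c) z
  have hword : ∀ z, ∑ c : Fin (m + 1), (Q : ZMod p₀) ^ (c : ℕ) * word z c = 0 := by
    intro z
    rw [Fin.sum_univ_succ]
    simp [word]
  have h1 := lowerA hφ (ι := Fin m → ZMod p₀) (m + 1) (KC s q)
    (fun z k => ⟨arc s q hs0 ((word z k).val * s / p₀), arc_card s q hs0 hqs _⟩) ?_
  · have h2 : Fintype.card (Fin m → ZMod p₀) = p₀ ^ m := by
      rw [Fintype.card_fun, ZMod.card, Fintype.card_fin]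
    rw [h2] at h1
    have h3 : (((p₀ ^ m : ℕ)) : ℝ) = ((Q : ℝ) ^ (m + 1) + 1) ^ m := by
      rw [hp₀]; push_cast; ring
    rw [h3] at h1
    exact h1
  · intro z z' hzz
    by_contra hcon
    push Not at hcon
    have h2 : ∀ k, ∃ d : ℤ, |d| < (Q : ℤ) ∧ (d : ZMod p₀) = word z k - word z' k := by
      intro k
      refine close_of_meet s q Q p₀ hs0 hQ hs _ _ (fun hd => hcon k ?_)
      rw [KC_compl s q hq]
      exact hd
    choose d hd1 hd2 using h2
    have h3 : ((∑ c : Fin (m + 1), (Q : ℤ) ^ (c : ℕ) * d c : ℤ) : ZMod p₀) = 0 := by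
      push_cast
      simp only [hd2, mul_sub, Finset.sum_sub_distrib, hword, sub_zero]
    have h4 := (ZMod.intCast_zmod_eq_zero_iff_dvd _ p₀).1 h3
    have h5 := digits_bound (Q : ℤ) (m + 1) d hd1
    have h6 : ∑ c : Fin (m + 1), (Q : ℤ) ^ (c : ℕ) * d c = 0 := by
      refine Int.eq_zero_of_abs_lt_dvd h4 (lt_of_le_of_lt h5 ?_)
      rw [hp₀]; push_cast; linarith
    have h7 := digits_zero (Q : ℤ) (m + 1) d hd1 h6
    apply hzz
    funext c
    have h8 := hd2 c.succ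
    rw [h7] at h8
    simp only [Int.cast_zero, word, Fin.cons_succ] at h8
    exact sub_eq_zero.1 h8.symm

/-- real form of the code bound -/
theorem code_real (hφ : IsSpectralPoint φ) (s q Q n : ℕ) (hq : 1 ≤ q) (hQ : 1 ≤ Q)
    (hn : 1 ≤ n) (hs : q * (Q ^ n + 1) ≤ s * Q) :
    ((Q : ℝ) ^ n + 1) / Q - 2 / (Q * n) ≤ φ _ (KC s q) := by
  obtain ⟨m, rfl⟩ : ∃ m, n = m + 1 := ⟨n - 1, by omega⟩
  have h1 := code_bound hφ s q Q m hq hQ hs
  have hF := hφ.nonneg _ (KC s q)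
  set F := φ _ (KC s q) with hFdef
  have hQR : (1 : ℝ) ≤ Q := by exact_mod_cast hQ
  have hQ0 : (0 : ℝ) < Q := by linarith
  set P : ℝ := (Q : ℝ) ^ (m + 1) + 1 with hP
  have hQn : (1 : ℝ) ≤ (Q : ℝ) ^ (m + 1) := one_le_pow₀ hQR
  have hP2 : 2 ≤ P := by rw [hP]; linarith
  have hP0 : 0 < P := by linarith
  set N : ℝ := ((m + 1 : ℕ) : ℝ) with hN
  have hN1 : 1 ≤ N := by
    rw [hN]; exact_mod_cast hn
  have hN0 : 0 < N := by linarith
  set u : ℝ := 2 / (N * P) with hu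
  have hu0 : 0 < u := by positivity
  have hu1 : u ≤ 1 := by
    rw [hu, div_le_one (by positivity)]
    nlinarith
  have e1 : P / Q - 2 / (Q * N) = P / Q * (1 - u) := by
    rw [hu]; field_simp
  rw [e1]
  have h2 : (1 - u) ^ (m + 1) * (1 + N * u) ≤ 1 := by
    have h3 := one_add_mul_le_pow (a := u) (by linarith) (m + 1)
    have h4 : (0 : ℝ) ≤ (1 - u) ^ (m + 1) := pow_nonneg (by linarith) _
    calc (1 - u) ^ (m + 1) * (1 + N * u) ≤ (1 - u) ^ (m + 1) * (1 + u) ^ (m + 1) :=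
          mul_le_mul_of_nonneg_left h3 h4
      _ = (1 - u ^ 2) ^ (m + 1) := by rw [← mul_pow]; congr 1; ring
      _ ≤ 1 := pow_le_one₀ (by nlinarith) (by nlinarith)
  have hNu : N * u = 2 / P := by rw [hu]; field_simp
  rw [hNu] at h2
  have h3 : (1 - u) ^ (m + 1) ≤ P / (P + 2) := by
    rw [le_div_iff₀ (by positivity)]
    have h4 : (1 - u) ^ (m + 1) * (P + 2) = ((1 - u) ^ (m + 1) * (1 + 2 / P)) * P := by
      field_simp
    rw [h4]
    nlinarith
  have h5 : (P / Q * (1 - u)) ^ (m + 1) ≤ F ^ (m + 1) := by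
    refine le_trans ?_ h1
    rw [mul_pow, div_pow]
    have hQe : (Q : ℝ) ^ (m + 1) = P - 1 := by rw [hP]; ring
    calc P ^ (m + 1) / (Q : ℝ) ^ (m + 1) * (1 - u) ^ (m + 1) ≤
        P ^ (m + 1) / (Q : ℝ) ^ (m + 1) * (P / (P + 2)) :=
          mul_le_mul_of_nonneg_left h3 (by positivity)
      _ = P ^ m * (P * P / ((P - 1) * (P + 2))) := by
          rw [hQe]
          have : P - 1 ≠ 0 := by linarith
          field_simp
          ring
      _ ≤ P ^ m * 1 := by
          refine mul_le_mul_of_nonneg_left ?_ (by positivity)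
          rw [div_le_one (by nlinarith)]
          nlinarith
      _ = P ^ m := mul_one _
  exact (pow_le_pow_iff_left₀ (by
    have : (0 : ℝ) ≤ P / Q := by positivity
    exact mul_nonneg this (by linarith)) hF (by omega)).1 h5

end Pool.Agent.helper67.KN
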