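import Pool.Agent.helper67.KN.Upper
import Pool.Agent.helper67.KN.Code

set_option autoImplicit false

namespace Pool.Agent.helper67.KN

open Finset

variable {φ : (V : Type) → [Fintype V] → SimpleGraph V → ℝ}

theorem step (hφ : IsSpectralPoint φ) (p q : ℕ) (hq : 1 ≤ q) :
    φ _ (KC p q) + 1 ≤ φ _ (KC (p + q) q) := by
  have h1 := superadd hφ p q q hq
  have h2 := one_le_KC hφ q
  linarith

theorem steps (hφ : IsSpectralPoint φ) (p q : ℕ) (hq : 1 ≤ q) (j : ℕ) :
    φ _ (KC p q) + j ≤ φ _ (KC (p + j * q) q) := by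
  have h1 := superadd hφ p (j * q) q hq
  have h2 := blocks hφ q hq j
  linarith

/-- part (3) -/
theorem lower3 (hφ : IsSpectralPoint φ) (p q n : ℕ) (hq : 1 ≤ q) (hn : 1 ≤ n)
    (h : q ^ (n + 1) ≤ p) : (p : ℝ) / q - 2 / n ≤ φ _ (KC p q) := by
  obtain ⟨k, rfl⟩ : ∃ k, n = k + 1 := ⟨n - 1, by omega⟩
  have hq0 : 0 < q := hq
  obtain ⟨P, hP⟩ : ∃ P, P = p / q := ⟨_, rfl⟩
  obtain ⟨r, hr⟩ : ∃ r, r = p % q := ⟨_, rfl⟩
  have hp : q * P + r = p := by rw [hP, hr]; exact Nat.div_add_mod p q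
  have hrq : r < q := by rw [hr]; exact Nat.mod_lt _ hq0
  have hPn : q ^ (k + 1) ≤ P := by
    rw [hP, Nat.le_div_iff_mul_le hq0]
    calc q ^ (k + 1) * q = q ^ (k + 1 + 1) := (pow_succ _ _).symm
      _ ≤ p := h
  have hrk : r * q ^ k ≤ P := by
    refine le_trans ?_ hPn
    rw [pow_succ, mul_comm]
    exact Nat.mul_le_mul_left _ hrq.le
  have h1 := code_real hφ (q ^ (k + 1) + 1) q q (k + 1) hq hq hn (by rw [mul_comm])
  have h2 := combine hφ p (q ^ (k + 1) + 1) q r (P - r * q ^ k) hq (by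
    have h3 : (P - r * q ^ k) * q = P * q - r * q ^ k * q := Nat.sub_mul _ _ _
    have h4 : r * (q ^ (k + 1) + 1) = r * q ^ k * q + r := by rw [pow_succ]; ring
    have h5 : r * q ^ k * q ≤ P * q := Nat.mul_le_mul_right _ hrk
    have h6 : q * P = P * q := mul_comm _ _
    rw [h3, h4]
    omega)
  have hqR : (1 : ℝ) ≤ q := by exact_mod_cast hq
  have hqR0 : (0 : ℝ) < q := by linarith
  have hr0 : (0 : ℝ) ≤ r := Nat.cast_nonneg _
  have hrR : (r : ℝ) ≤ q := by exact_mod_cast hrq.le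
  have h3 := mul_le_mul_of_nonneg_left h1 hr0
  rw [Nat.cast_sub hrk] at h2
  have hN0 : (0 : ℝ) < ((k + 1 : ℕ) : ℝ) := by
    have : 0 < k + 1 := by omega
    exact_mod_cast this
  have h4 : (p : ℝ) / q = P + r / q := by
    rw [← hp]; push_cast; field_simp
  have h5 : (r : ℝ) * (((q : ℝ) ^ (k + 1) + 1) / q - 2 / (q * ((k + 1 : ℕ) : ℝ))) =
      r * (q : ℝ) ^ k + r / q - (r / q) * (2 / ((k + 1 : ℕ) : ℝ)) := by
    rw [pow_succ]; field_simp
    try ring
  have h6 : (r : ℝ) / q * (2 / ((k + 1 : ℕ) : ℝ)) ≤ 1 * (2 / ((k + 1 : ℕ) : ℝ)) := by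
    refine mul_le_mul_of_nonneg_right ?_ (by positivity)
    rw [div_le_one hqR0]; exact hrR
  rw [h5] at h3
  rw [h4]
  push_cast at h2 h3 h6 ⊢
  linarith

/-- part (4) -/
theorem lower4 (hφ : IsSpectralPoint φ) (p q n : ℕ) (hq : 1 ≤ q) (hn : 1 ≤ n)
    (h : n ^ (2 * n) * q ≤ p) : (p : ℝ) / q - 4 / n ≤ φ _ (KC p q) := by
  have hnR : (1 : ℝ) ≤ n := by exact_mod_cast hn
  have hnR0 : (0 : ℝ) < n := by linarith
  rcases Nat.lt_or_ge (n ^ 2) q with hqn | hqn
  · obtain ⟨k, rfl⟩ : ∃ k, n = k + 1 := ⟨n - 1, by omega⟩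
    have hq0 : 0 < q := hq
    obtain ⟨P, hP⟩ : ∃ P, P = p / q := ⟨_, rfl⟩
    obtain ⟨r, hr⟩ : ∃ r, r = p % q := ⟨_, rfl⟩
    have hp : q * P + r = p := by rw [hP, hr]; exact Nat.div_add_mod p q
    have hrq : r < q := by rw [hr]; exact Nat.mod_lt _ hq0
    have hPn : (k + 1) ^ (2 * (k + 1)) ≤ P := by
      rw [hP, Nat.le_div_iff_mul_le hq0]
      exact h
    obtain ⟨s, hs⟩ : ∃ s, s = (q * ((k + 1) ^ (k + 1) + 1) + k) / (k + 1) := ⟨_, rfl⟩
    have hs1 : q * ((k + 1) ^ (k + 1) + 1) ≤ s * (k + 1) := by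
      have h1 := Nat.div_add_mod (q * ((k + 1) ^ (k + 1) + 1) + k) (k + 1)
      have h2 := Nat.mod_lt (q * ((k + 1) ^ (k + 1) + 1) + k) (show 0 < k + 1 by omega)
      rw [← hs] at h1
      have h3 : s * (k + 1) = (k + 1) * s := mul_comm _ _
      omega
    have hs2 : s * (k + 1) ≤ q * ((k + 1) ^ (k + 1) + 1) + k := by
      rw [hs]; exact Nat.div_mul_le_self _ _
    obtain ⟨a, ha⟩ : ∃ a, a = (r * (k + 1)) / (q + (k + 1)) := ⟨_, rfl⟩
    have ha1 : a * (q + (k + 1)) ≤ r * (k + 1) := by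
      rw [ha]; exact Nat.div_mul_le_self _ _
    have ha2 : r * (k + 1) < (a + 1) * (q + (k + 1)) := by
      rw [ha, mul_comm (_ / _ + 1)]
      exact Nat.lt_mul_div_succ _ (by omega)
    have ha3 : a ≤ k + 1 := by
      by_contra hcon
      push Not at hcon
      have h1 : (k + 1) * (q + (k + 1)) < a * (q + (k + 1)) :=
        Nat.mul_lt_mul_of_pos_right hcon (by omega)
      nlinarith
    have hak : a * (k + 1) ^ k ≤ P := by
      refine le_trans ?_ hPn
      calc a * (k + 1) ^ k ≤ (k + 1) * (k + 1) ^ k := Nat.mul_le_mul_right _ ha3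
        _ = (k + 1) ^ (k + 1) := by rw [pow_succ]; ring
        _ ≤ (k + 1) ^ (2 * (k + 1)) := Nat.pow_le_pow_right (by omega) (by omega)
    have hkey : a * s ≤ a * (k + 1) ^ k * q + r := by
      have h1 : a * s * (k + 1) ≤ (a * (k + 1) ^ k * q + r) * (k + 1) := by
        calc a * s * (k + 1) = a * (s * (k + 1)) := by ring
          _ ≤ a * (q * ((k + 1) ^ (k + 1) + 1) + k) := Nat.mul_le_mul_left _ hs2
          _ = a * (k + 1) ^ k * q * (k + 1) + a * (q + k) := by rw [pow_succ]; ring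
          _ ≤ a * (k + 1) ^ k * q * (k + 1) + a * (q + (k + 1)) := by
              refine Nat.add_le_add_left (Nat.mul_le_mul_left _ (by omega)) _
          _ ≤ a * (k + 1) ^ k * q * (k + 1) + r * (k + 1) := Nat.add_le_add_left ha1 _
          _ = _ := by ring
      exact Nat.le_of_mul_le_mul_right h1 (by omega)
    have h1 := code_real hφ s q (k + 1) (k + 1) hq hn hn hs1
    have h2 := combine hφ p s q a (P - a * (k + 1) ^ k) hq (by
      have h3 : (P - a * (k + 1) ^ k) * q = P * q - a * (k + 1) ^ k * q := Nat.sub_mul _ _ _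
      have h5 : a * (k + 1) ^ k * q ≤ P * q := Nat.mul_le_mul_right _ hak
      have h6 : q * P = P * q := mul_comm _ _
      rw [h3]
      omega)
    have hqR : (1 : ℝ) ≤ q := by exact_mod_cast hq
    have hqR0 : (0 : ℝ) < q := by linarith
    have hr0 : (0 : ℝ) ≤ r := Nat.cast_nonneg _
    have hrR : (r : ℝ) ≤ q := by exact_mod_cast hrq.le
    have ha0 : (0 : ℝ) ≤ a := Nat.cast_nonneg _
    have h3 := mul_le_mul_of_nonneg_left h1 ha0
    rw [Nat.cast_sub hak] at h2
    set N : ℝ := ((k + 1 : ℕ) : ℝ) with hN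
    have haN : (a : ℝ) ≤ N := by rw [hN]; exact_mod_cast ha3
    have h4 : (p : ℝ) / q = P + r / q := by
      rw [← hp]; push_cast; field_simp
    have h5 : (a : ℝ) * ((N ^ (k + 1) + 1) / N - 2 / (N * N)) =
        a * N ^ k + a / N - (a / N) * (2 / N) := by
      rw [pow_succ]; field_simp
      try ring
    have h6 : (a : ℝ) / N * (2 / N) ≤ 1 * (2 / N) := by
      refine mul_le_mul_of_nonneg_right ?_ (by positivity)
      rw [div_le_one hnR0]; exact haN
    have h7 : (r : ℝ) / q - 2 / N ≤ a / N := by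
      have h8 : (r : ℝ) * N ≤ (a + 1) * (q + N) := by
        rw [hN]; exact_mod_cast ha2.le
      have h9 : (r : ℝ) / (q + N) ≤ (a + 1) / N := by
        rw [div_le_div_iff₀ (by positivity) hnR0]
        exact h8
      have h10 : (r : ℝ) / q - r / (q + N) ≤ 1 / N := by
        have h11 : (r : ℝ) / q - r / (q + N) = (r / q) * (N / (q + N)) := by
          field_simp
          ring
        rw [h11]
        have h12 : (r : ℝ) / q ≤ 1 := by rw [div_le_one hqR0]; exact hrR
        have h13 : N / (q + N) ≤ 1 / N := by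
          rw [div_le_div_iff₀ (by positivity) hnR0]
          have h14 : N ^ 2 ≤ (q : ℝ) := by rw [hN]; exact_mod_cast hqn.le
          nlinarith
        calc (r : ℝ) / q * (N / (q + N)) ≤ 1 * (N / (q + N)) :=
              mul_le_mul_of_nonneg_right h12 (by positivity)
          _ = N / (q + N) := one_mul _
          _ ≤ 1 / N := h13
      have h15 : ((a : ℝ) + 1) / N = a / N + 1 / N := add_div _ _ _
      have h16 : (2 : ℝ) / N = 1 / N + 1 / N := by ring
      rw [h15] at h9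
      rw [h16]
      linarith
    rw [h5] at h3
    rw [h4]
    have h17 : (4 : ℝ) / N = 2 / N + 2 / N := by ring
    rw [h17]
    have h18 : (((a * (k + 1) ^ k : ℕ)) : ℝ) = a * N ^ k := by
      rw [hN]; push_cast; ring
    rw [h18] at h2
    linarith
  · have h1 := lower3 hφ p q n hq hn (by
      refine le_trans ?_ h
      rw [pow_succ]
      refine Nat.mul_le_mul_right _ ?_
      rw [pow_mul]
      exact Nat.pow_le_pow_left hqn n)
    have h2 : (2 : ℝ) / n ≤ 4 / n := by
      gcongr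
      norm_num
    linarith

/-- part (5) -/
theorem reduction (hφ : IsSpectralPoint φ) :
    (∀ p q : ℕ, 1 ≤ q → 2 * q ≤ p → φ _ (KC p q) = (p : ℝ) / q) ↔
      ∀ p q : ℕ, 1 ≤ q → 2 * q < p → p < 3 * q → φ _ (KC p q) = (p : ℝ) / q := by
  constructor
  · intro h p q hq h1 _
    exact h p q hq h1.le
  · intro h p q hq h1
    have hq0 : 0 < q := hq
    have hqR0 : (0 : ℝ) < (q : ℝ) := by exact_mod_cast hq0
    refine le_antisymm (upper hφ p q hq (by omega)) ?_
    obtain ⟨j, r, hr, hp⟩ : ∃ j r, r < q ∧ p = (2 * q + r) + j * q := by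
      refine ⟨(p - 2 * q) / q, (p - 2 * q) % q, Nat.mod_lt _ hq0, ?_⟩
      have h2 := Nat.div_add_mod (p - 2 * q) q
      have h3 : (p - 2 * q) / q * q = q * ((p - 2 * q) / q) := mul_comm _ _
      omega
    have h2 := steps hφ (2 * q + r) q hq j
    rw [← hp] at h2
    have h3 : ((2 * q + r : ℕ) : ℝ) / q ≤ φ _ (KC (2 * q + r) q) := by
      rcases Nat.eq_zero_or_pos r with h0 | h0
      · subst h0
        have h4 := blocks hφ q hq 2
        have h5 : ((2 * q + 0 : ℕ) : ℝ) / q = 2 := by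
          push_cast; field_simp
          try ring
        rw [h5]
        exact_mod_cast h4
      · exact (h (2 * q + r) q hq (by omega) (by omega)).ge
    have h4 : (p : ℝ) / q = ((2 * q + r : ℕ) : ℝ) / q + j := by
      rw [hp]; push_cast; field_simp
    rw [h4]
    linarith

end Pool.Agent.helper67.KN
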