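import Mathlib

set_option autoImplicit false

namespace Pool.Agent.helper67.KN

/-- A spectral point of the semiring of finite graphs: a nonnegative, cohomomorphism monotone,
additive, multiplicative and normalised real invariant, exactly as in the frozen statement. -/
structure IsSpectralPoint (φ : (V : Type) → [Fintype V] → SimpleGraph V → ℝ) : Prop where
  nonneg : ∀ (V : Type) [Fintype V] (G : SimpleGraph V), 0 ≤ φ V G
  mono : ∀ (V W : Type) [Fintype V] [Fintype W] (G : SimpleGraph V) (H : SimpleGraph W),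
    Nonempty (Gᶜ →g Hᶜ) → φ V G ≤ φ W H
  add : ∀ (V W : Type) [Fintype V] [Fintype W] (G : SimpleGraph V) (H : SimpleGraph W),
    φ (V ⊕ W) (SimpleGraph.fromRel (Sum.LiftRel G.Adj H.Adj)) = φ V G + φ W H
  mul : ∀ (V W : Type) [Fintype V] [Fintype W] (G : SimpleGraph V) (H : SimpleGraph W),
    φ (V × W) (SimpleGraph.fromRel (fun x y : V × W =>
      (x.1 = y.1 ∨ G.Adj x.1 y.1) ∧ (x.2 = y.2 ∨ H.Adj x.2 y.2))) = φ V G * φ W H
  one : φ (Fin 1) (⊥ : SimpleGraph (Fin 1)) = 1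

/-- The complement of the Kneser graph of the `q`-subsets of a `p`-set, as in the frozen
statement. -/
def KC (p q : ℕ) : SimpleGraph {s : Finset (Fin p) // s.card = q} :=
  (SimpleGraph.fromRel (fun s t : {s : Finset (Fin p) // s.card = q} => Disjoint s.1 t.1))ᶜ

variable {φ : (V : Type) → [Fintype V] → SimpleGraph V → ℝ}

theorem mono' (hφ : IsSpectralPoint φ) {V W : Type} [Fintype V] [Fintype W]
    (G : SimpleGraph V) (H : SimpleGraph W) (f : V → W)
    (h : ∀ x y, Gᶜ.Adj x y → Hᶜ.Adj (f x) (f y)) : φ V G ≤ φ W H :=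
  hφ.mono V W G H ⟨⟨f, fun {x y} hxy => h x y hxy⟩⟩

theorem iso' (hφ : IsSpectralPoint φ) {V W : Type} [Fintype V] [Fintype W]
    (G : SimpleGraph V) (H : SimpleGraph W) (e : V ≃ W)
    (h : ∀ x y, Gᶜ.Adj x y ↔ Hᶜ.Adj (e x) (e y)) : φ V G = φ W H := by
  apply le_antisymm
  · exact mono' hφ G H e (fun x y => (h x y).1)
  · refine mono' hφ H G e.symm (fun x y hxy => ?_)
    rw [h]
    simpa using hxy

theorem prod_compl {V W : Type} (G : SimpleGraph V) (H : SimpleGraph W) (x y : V × W) :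
    (SimpleGraph.fromRel (fun x y : V × W =>
      (x.1 = y.1 ∨ G.Adj x.1 y.1) ∧ (x.2 = y.2 ∨ H.Adj x.2 y.2)))ᶜ.Adj x y ↔
      Gᶜ.Adj x.1 y.1 ∨ Hᶜ.Adj x.2 y.2 := by
  simp only [SimpleGraph.compl_adj, SimpleGraph.fromRel_adj]
  have h1 : (y.1 = x.1 ∨ G.Adj y.1 x.1) ↔ (x.1 = y.1 ∨ G.Adj x.1 y.1) := by
    rw [eq_comm, G.adj_comm]
  have h2 : (y.2 = x.2 ∨ H.Adj y.2 x.2) ↔ (x.2 = y.2 ∨ H.Adj x.2 y.2) := by
    rw [eq_comm, H.adj_comm]
  rw [h1, h2]
  have h3 : x = y ↔ x.1 = y.1 ∧ x.2 = y.2 := Prod.ext_iff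
  rw [Ne, h3]
  tauto

theorem sum_compl_ll {V W : Type} (G : SimpleGraph V) (H : SimpleGraph W) (x y : V) :
    (SimpleGraph.fromRel (Sum.LiftRel G.Adj H.Adj))ᶜ.Adj (Sum.inl x) (Sum.inl y) ↔
      Gᶜ.Adj x y := by
  simp only [SimpleGraph.compl_adj, SimpleGraph.fromRel_adj, ne_eq, Sum.inl.injEq,
    Sum.liftRel_inl_inl]
  have := G.adj_comm x y
  tauto

theorem sum_compl_rr {V W : Type} (G : SimpleGraph V) (H : SimpleGraph W) (x y : W) :
    (SimpleGraph.fromRel (Sum.LiftRel G.Adj H.Adj))ᶜ.Adj (Sum.inr x) (Sum.inr y) ↔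
      Hᶜ.Adj x y := by
  simp only [SimpleGraph.compl_adj, SimpleGraph.fromRel_adj, ne_eq, Sum.inr.injEq,
    Sum.liftRel_inr_inr]
  have := H.adj_comm x y
  tauto

theorem sum_compl_lr {V W : Type} (G : SimpleGraph V) (H : SimpleGraph W) (x : V) (y : W) :
    (SimpleGraph.fromRel (Sum.LiftRel G.Adj H.Adj))ᶜ.Adj (Sum.inl x) (Sum.inr y) := by
  simp [SimpleGraph.compl_adj, SimpleGraph.fromRel_adj]

theorem sum_compl_rl {V W : Type} (G : SimpleGraph V) (H : SimpleGraph W) (x : V) (y : W) :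
    (SimpleGraph.fromRel (Sum.LiftRel G.Adj H.Adj))ᶜ.Adj (Sum.inr y) (Sum.inl x) := by
  simp [SimpleGraph.compl_adj, SimpleGraph.fromRel_adj]

theorem bot_compl_adj {V : Type} (x y : V) : (⊥ : SimpleGraph V)ᶜ.Adj x y ↔ x ≠ y := by
  simp [SimpleGraph.compl_adj]

/-- value of an edgeless graph -/
theorem phi_bot_fin (hφ : IsSpectralPoint φ) (n : ℕ) :
    φ (Fin n) (⊥ : SimpleGraph (Fin n)) = n := by
  induction n with
  | zero =>
    have h1 := hφ.add (Fin 0) (Fin 0) ⊥ ⊥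
    have h2 : φ (Fin 0 ⊕ Fin 0) (SimpleGraph.fromRel (Sum.LiftRel (⊥ : SimpleGraph (Fin 0)).Adj
        (⊥ : SimpleGraph (Fin 0)).Adj)) = φ (Fin 0) ⊥ := by
      refine iso' hφ _ _ (Equiv.sumEmpty (Fin 0) (Fin 0)) (fun x y => ?_)
      rcases x with x | x <;> exact Fin.elim0 x
    rw [h2] at h1
    simpa using h1
  | succ n ih =>
    have h1 := hφ.add (Fin n) (Fin 1) ⊥ ⊥
    rw [ih, hφ.one] at h1
    have h2 : φ (Fin n ⊕ Fin 1) (SimpleGraph.fromRel (Sum.LiftRel (⊥ : SimpleGraph (Fin n)).Adj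
        (⊥ : SimpleGraph (Fin 1)).Adj)) = φ (Fin (n + 1)) ⊥ := by
      refine iso' hφ _ _ finSumFinEquiv (fun x y => ?_)
      rw [bot_compl_adj, finSumFinEquiv.injective.ne_iff]
      rcases x with x | x <;> rcases y with y | y
      · rw [sum_compl_ll, bot_compl_adj]; simp
      · simp
      · simp
      · rw [sum_compl_rr, bot_compl_adj]; simp
    rw [h2] at h1
    rw [h1]; push_cast; ring

theorem phi_bot (hφ : IsSpectralPoint φ) (ι : Type) [Fintype ι] :
    φ ι (⊥ : SimpleGraph ι) = Fintype.card ι := by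
  rw [← phi_bot_fin hφ]
  refine iso' hφ _ _ (Fintype.equivFin ι) (fun x y => ?_)
  rw [bot_compl_adj, bot_compl_adj]
  simp

/-- strong power on functions -/
def SP {V : Type} (n : ℕ) (G : SimpleGraph V) : SimpleGraph (Fin n → V) where
  Adj x y := x ≠ y ∧ ∀ k, x k = y k ∨ G.Adj (x k) (y k)
  symm := ⟨fun x y h => ⟨h.1.symm, fun k => (h.2 k).elim (fun e => Or.inl e.symm)
    (fun e => Or.inr e.symm)⟩⟩
  loopless := ⟨fun x h => h.1 rfl⟩

theorem SP_compl {V : Type} (n : ℕ) (G : SimpleGraph V) (x y : Fin n → V) :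
    (SP n G)ᶜ.Adj x y ↔ ∃ k, Gᶜ.Adj (x k) (y k) := by
  rw [SimpleGraph.compl_adj]
  constructor
  · rintro ⟨h1, h2⟩
    by_contra hcon
    push Not at hcon
    refine h2 ⟨h1, fun k => ?_⟩
    have := hcon k
    rw [SimpleGraph.compl_adj] at this
    tauto
  · rintro ⟨k, hk⟩
    rw [SimpleGraph.compl_adj] at hk
    refine ⟨fun h => hk.1 (by rw [h]), fun h => ?_⟩
    have := h.2 k
    tauto

theorem phi_SP (hφ : IsSpectralPoint φ) {V : Type} [Fintype V] (n : ℕ) (G : SimpleGraph V) :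
    φ (Fin n → V) (SP n G) = φ V G ^ n := by
  induction n with
  | zero =>
    rw [pow_zero, ← hφ.one]
    refine iso' hφ _ _ ⟨fun _ => 0, fun _ => fun k => Fin.elim0 k, fun x => ?_, fun x => ?_⟩
      (fun x y => ?_)
    · funext k; exact Fin.elim0 k
    · exact (Subsingleton.elim _ _)
    · rw [SP_compl, bot_compl_adj]
      simp
  | succ n ih =>
    rw [pow_succ', ← ih, ← hφ.mul V (Fin n → V) G (SP n G)]
    refine iso' hφ _ _ ⟨fun f => (f 0, fun k => f k.succ), fun p => Fin.cons p.1 p.2,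
      fun x => ?_, fun x => ?_⟩ (fun x y => ?_)
    · funext k
      refine Fin.cases ?_ (fun j => ?_) k
      · simp
      · simp
    · simp
    · rw [SP_compl, prod_compl]
      simp only [Equiv.coe_fn_mk]
      rw [SP_compl, Fin.exists_fin_succ]

/-- lower bounds from codes -/
theorem lowerA (hφ : IsSpectralPoint φ) {V ι : Type} [Fintype V] [Fintype ι] (n : ℕ)
    (G : SimpleGraph V) (f : ι → Fin n → V)
    (h : ∀ i j, i ≠ j → ∃ k, Gᶜ.Adj (f i k) (f j k)) :
    (Fintype.card ι : ℝ) ≤ φ V G ^ n := by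
  rw [← phi_bot hφ ι, ← phi_SP hφ]
  refine mono' hφ _ _ f (fun x y hxy => ?_)
  rw [bot_compl_adj] at hxy
  rw [SP_compl]
  exact h x y hxy

/-- upper bounds from clique covers -/
theorem upperA (hφ : IsSpectralPoint φ) {V ι : Type} [Fintype V] [Fintype ι]
    (G : SimpleGraph V) (c : V → ι) (h : ∀ x y, c x = c y → ¬ Gᶜ.Adj x y) :
    φ V G ≤ Fintype.card ι := by
  rw [← phi_bot hφ ι]
  refine mono' hφ _ _ c (fun x y hxy => ?_)
  rw [bot_compl_adj]
  exact fun hc => h x y hc hxy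

theorem KC_compl (p q : ℕ) (hq : 1 ≤ q) (s t : {s : Finset (Fin p) // s.card = q}) :
    (KC p q)ᶜ.Adj s t ↔ Disjoint s.1 t.1 := by
  rw [KC, compl_compl, SimpleGraph.fromRel_adj, disjoint_comm (a := t.1), or_self]
  constructor
  · exact fun h => h.2
  · intro h
    refine ⟨fun e => ?_, h⟩
    rw [e, disjoint_self] at h
    have := t.2
    rw [h] at this
    simp at this
    omega

/-- superadditivity -/
theorem superadd (hφ : IsSpectralPoint φ) (p₁ p₂ q : ℕ) (hq : 1 ≤ q) :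
    φ _ (KC p₁ q) + φ _ (KC p₂ q) ≤ φ _ (KC (p₁ + p₂) q) := by
  rw [← hφ.add]
  refine mono' hφ _ _ (fun x => match x with
    | Sum.inl s => ⟨s.1.map (Fin.castAddEmb p₂), by rw [Finset.card_map]; exact s.2⟩
    | Sum.inr s => ⟨s.1.map (Fin.natAddEmb p₁), by rw [Finset.card_map]; exact s.2⟩) ?_
  intro x y hxy
  rw [KC_compl _ _ hq]
  rcases x with x | x <;> rcases y with y | y
  · rw [sum_compl_ll, KC_compl _ _ hq] at hxy
    simp only
    rw [Finset.disjoint_map]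
    exact hxy
  · simp only
    rw [Finset.disjoint_left]
    intro a ha hb
    rw [Finset.mem_map] at ha hb
    obtain ⟨u, -, rfl⟩ := ha
    obtain ⟨v, -, hv⟩ := hb
    have := congrArg Fin.val hv
    simp at this
    omega
  · simp only
    rw [Finset.disjoint_left]
    intro a ha hb
    rw [Finset.mem_map] at ha hb
    obtain ⟨u, -, rfl⟩ := ha
    obtain ⟨v, -, hv⟩ := hb
    have := congrArg Fin.val hv
    simp at this
    omega
  · rw [sum_compl_rr, KC_compl _ _ hq] at hxy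
    simp only
    rw [Finset.disjoint_map]
    exact hxy

theorem one_le_KC (hφ : IsSpectralPoint φ) (q : ℕ) : 1 ≤ φ _ (KC q q) := by
  have h := lowerA hφ (ι := Fin 1) 1 (KC q q)
    (fun _ _ => ⟨Finset.univ, by simp⟩) (fun i j hij => absurd (Subsingleton.elim i j) hij)
  simpa using h

theorem KC_mono (hφ : IsSpectralPoint φ) {p p' : ℕ} (q : ℕ) (hq : 1 ≤ q) (h : p ≤ p') :
    φ _ (KC p q) ≤ φ _ (KC p' q) := by
  obtain ⟨d, rfl⟩ := Nat.exists_eq_add_of_le h
  have h1 := superadd hφ p d q hq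
  have h2 := hφ.nonneg _ (KC d q)
  linarith

theorem blocks (hφ : IsSpectralPoint φ) (q : ℕ) (hq : 1 ≤ q) (m : ℕ) :
    (m : ℝ) ≤ φ _ (KC (m * q) q) := by
  induction m with
  | zero => simpa using hφ.nonneg _ (KC (0 * q) q)
  | succ m ih =>
    have h1 := superadd hφ (m * q) q q hq
    have h2 := one_le_KC hφ q
    rw [Nat.succ_mul]
    push_cast
    linarith

theorem copies (hφ : IsSpectralPoint φ) (s q : ℕ) (hq : 1 ≤ q) (a : ℕ) :
    (a : ℝ) * φ _ (KC s q) ≤ φ _ (KC (a * s) q) := by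
  induction a with
  | zero => simpa using hφ.nonneg _ (KC (0 * s) q)
  | succ m ih =>
    have h1 := superadd hφ (m * s) s q hq
    rw [Nat.succ_mul]
    push_cast
    linarith

theorem combine (hφ : IsSpectralPoint φ) (p s q a m : ℕ) (hq : 1 ≤ q) (h : a * s + m * q ≤ p) :
    (a : ℝ) * φ _ (KC s q) + m ≤ φ _ (KC p q) := by
  have h1 := copies hφ s q hq a
  have h2 := blocks hφ q hq m
  have h3 := superadd hφ (a * s) (m * q) q hq
  have h4 := KC_mono hφ q hq h
  linarith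

end Pool.Agent.helper67.KN
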