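import Pool.Agent.helper67.KN.Basic

set_option autoImplicit false

namespace Pool.Agent.helper67.KN

open Finset

variable {φ : (V : Type) → [Fintype V] → SimpleGraph V → ℝ}

open Classical in
/-- existence of a small cover, by counting -/
theorem cover {X A : Type} [Fintype X] [Fintype A] (R : X → A → Prop) (r M : ℕ)
    (hr : ∀ x, r ≤ (Finset.univ.filter (fun a => R x a)).card)
    (h : Fintype.card X * (Fintype.card A - r) ^ M < Fintype.card A ^ M) :
    ∃ s : Fin M → A, ∀ x, ∃ k, R x (s k) := by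
  by_contra hcon
  push Not at hcon
  have h1 : (Finset.univ : Finset (Fin M → A)) ⊆
      Finset.univ.biUnion (fun x : X => Fintype.piFinset
        (fun _ : Fin M => Finset.univ.filter (fun a => ¬ R x a))) := by
    intro s _
    obtain ⟨x, hx⟩ := hcon s
    rw [Finset.mem_biUnion]
    refine ⟨x, Finset.mem_univ _, ?_⟩
    rw [Fintype.mem_piFinset]
    intro k
    simpa using hx k
  have h2 := (Finset.card_le_card h1).trans Finset.card_biUnion_le
  have h3 : ∀ x : X, (Fintype.piFinset
        (fun _ : Fin M => Finset.univ.filter (fun a => ¬ R x a))).card ≤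
          (Fintype.card A - r) ^ M := by
    intro x
    rw [Fintype.card_piFinset]
    simp only [Finset.prod_const, Finset.card_univ, Fintype.card_fin]
    refine Nat.pow_le_pow_left ?_ _
    have h4 := Finset.card_filter_add_card_filter_not (s := (Finset.univ : Finset A)) (fun a => R x a)
    have h5 := hr x
    rw [Finset.card_univ] at h4
    omega
  have h4 : ∑ x : X, (Fintype.piFinset
        (fun _ : Fin M => Finset.univ.filter (fun a => ¬ R x a))).card ≤
          Fintype.card X * (Fintype.card A - r) ^ M := by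
    refine (Finset.sum_le_sum (fun x _ => h3 x)).trans (le_of_eq ?_)
    simp
  have h5 : (Finset.univ : Finset (Fin M → A)).card = Fintype.card A ^ M := by
    simp
  omega

/-- the numerical condition for the cover -/
theorem half_pow {P Q m : ℕ} (hQ : Q ≤ P) (hP : 0 < P) (hm : P ≤ m * Q) (L : ℕ) :
    2 ^ L * (P - Q) ^ (m * L) ≤ P ^ (m * L) := by
  have hPR : (0 : ℝ) < (P : ℝ) := by exact_mod_cast hP
  have key : (2 : ℝ) * ((P : ℝ) - Q) ^ m ≤ (P : ℝ) ^ m := by
    set t : ℝ := (Q : ℝ) / P with ht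
    have h1 : ((P : ℝ) - Q) = P * (1 - t) := by rw [ht]; field_simp
    have ht1 : t ≤ 1 := by
      rw [ht, div_le_one hPR]; exact_mod_cast hQ
    have hmt : 1 ≤ (m : ℝ) * t := by
      rw [ht, ← mul_div_assoc, le_div_iff₀ hPR, one_mul]
      exact_mod_cast hm
    have h2 : (1 - t) ^ m ≤ Real.exp (-1) := by
      calc (1 - t) ^ m ≤ (Real.exp (-t)) ^ m := by
            refine pow_le_pow_left₀ (by linarith) ?_ _
            have := Real.add_one_le_exp (-t)
            linarith
        _ = Real.exp (-(m * t)) := by rw [← Real.exp_nat_mul]; congr 1; ring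
        _ ≤ _ := Real.exp_le_exp.2 (by linarith)
    have h3 : 2 * Real.exp (-1) ≤ 1 := by
      rw [Real.exp_neg]
      have h4 := Real.add_one_le_exp (1 : ℝ)
      have h5 := Real.exp_pos (1 : ℝ)
      rw [← div_eq_mul_inv, div_le_one h5]
      linarith
    rw [h1, mul_pow]
    have h6 : (0 : ℝ) ≤ (P : ℝ) ^ m := by positivity
    nlinarith
  have key2 : (2 : ℝ) ^ L * ((P : ℝ) - Q) ^ (m * L) ≤ (P : ℝ) ^ (m * L) := by
    rw [pow_mul, pow_mul, ← mul_pow]
    refine pow_le_pow_left₀ ?_ key _
    have : (0 : ℝ) ≤ (P : ℝ) - Q := by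
      have : (Q : ℝ) ≤ P := by exact_mod_cast hQ
      linarith
    positivity
  have h7 : ((P - Q : ℕ) : ℝ) = (P : ℝ) - Q := by
    rw [Nat.cast_sub hQ]
  rw [← h7] at key2
  exact_mod_cast key2

/-- linear growth cannot dominate a power of a number larger than one -/
theorem le_of_pow_le_mul {r x C : ℝ} (hx : 0 < x) (hC : 0 ≤ C)
    (h : ∀ n : ℕ, 1 ≤ n → r ^ n ≤ C * n * x ^ n) : r ≤ x := by
  by_contra hcon
  push Not at hcon
  set d : ℝ := r / x - 1 with hd
  have hd0 : 0 < d := by
    rw [hd, sub_pos, one_lt_div hx]; exact hcon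
  obtain ⟨m, hm⟩ := exists_nat_gt (2 * C / d ^ 2)
  have hm0 : 0 < (m : ℝ) := lt_of_le_of_lt (by positivity) hm
  have hm1 : 1 ≤ m := by
    have : 0 < m := by exact_mod_cast hm0
    exact this
  have h1 := h (2 * m) (by omega)
  have h2 : (1 + (m : ℝ) * d) ^ 2 ≤ (r / x) ^ (2 * m) := by
    rw [mul_comm 2 m, pow_mul]
    refine pow_le_pow_left₀ (by positivity) ?_ _
    have := one_add_mul_le_pow (a := d) (by linarith) m
    have h3 : 1 + d = r / x := by rw [hd]; ring
    rwa [h3] at this
  have h4 : (r / x) ^ (2 * m) ≤ C * (2 * m : ℕ) := by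
    rw [div_pow, div_le_iff₀ (by positivity)]
    exact h1
  have h5 : 2 * C < m * d ^ 2 := by
    rwa [div_lt_iff₀ (by positivity)] at hm
  push_cast at h4
  have h6 : 0 < (m : ℝ) * d := by positivity
  nlinarith

/-- part (1): the upper bound -/
theorem upper (hφ : IsSpectralPoint φ) (p q : ℕ) (hq : 1 ≤ q) (hpq : q ≤ p) :
    φ _ (KC p q) ≤ (p : ℝ) / q := by
  classical
  have hqR : (0 : ℝ) < (q : ℝ) := by exact_mod_cast hq
  have hpR : (0 : ℝ) < (p : ℝ) := by
    have : 0 < p := by omega
    exact_mod_cast this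
  have hx : (0 : ℝ) < (p : ℝ) / q := by positivity
  set K : ℕ := Fintype.card {s : Finset (Fin p) // s.card = q} with hK
  refine le_of_pow_le_mul (C := 2 * K) hx (by positivity) (fun n hn => ?_)
  -- number of the blocks
  obtain ⟨m, hm1, hm2⟩ : ∃ m : ℕ, p ^ n ≤ m * q ^ n ∧ (m : ℝ) ≤ 2 * ((p : ℝ) / q) ^ n := by
    refine ⟨⌈((p : ℝ) / q) ^ n⌉₊, ?_, ?_⟩
    · have h1 := Nat.le_ceil (((p : ℝ) / q) ^ n)
      have h2 : ((p : ℝ)) ^ n ≤ (⌈((p : ℝ) / q) ^ n⌉₊ : ℝ) * (q : ℝ) ^ n := by
        rw [div_pow, div_le_iff₀ (by positivity)] at h1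
        rw [div_pow]
        exact h1
      exact_mod_cast h2
    · have h1 := Nat.ceil_lt_add_one (show (0 : ℝ) ≤ ((p : ℝ) / q) ^ n by positivity)
      have h2 : (1 : ℝ) ≤ ((p : ℝ) / q) ^ n := by
        refine one_le_pow₀ ?_
        rw [le_div_iff₀ hqR, one_mul]
        exact_mod_cast hpq
      linarith
  have hcard : Fintype.card (Fin n → Fin p) = p ^ n := by simp
  have hcardX : Fintype.card (Fin n → {s : Finset (Fin p) // s.card = q}) = K ^ n := by
    rw [Fintype.card_fun, Fintype.card_fin]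
  have hcov := cover (X := Fin n → {s : Finset (Fin p) // s.card = q}) (A := Fin n → Fin p)
    (fun x a => ∀ k, a k ∈ (x k).1) (q ^ n) (m * (n * K)) (fun x => ?_) ?_
  · obtain ⟨s, hs⟩ := hcov
    choose c hc using hs
    have h1 := upperA hφ (SP n (KC p q)) c (fun x y hxy => ?_)
    · rw [phi_SP hφ, Fintype.card_fin] at h1
      refine h1.trans ?_
      push_cast
      have : (0 : ℝ) ≤ (n : ℝ) * K := by positivity
      nlinarith
    · rw [SP_compl]
      rintro ⟨k, hk⟩
      rw [KC_compl p q hq] at hk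
      have h2 := hc x k
      have h3 := hc y k
      rw [← hxy] at h3
      exact (Finset.disjoint_left.1 hk) h2 h3
  · have h1 : (Fintype.piFinset (fun k => (x k).1)).card = q ^ n := by
      rw [Fintype.card_piFinset]
      simp only [fun k => (x k).2, Finset.prod_const, Finset.card_univ, Fintype.card_fin]
    rw [← h1]
    refine Finset.card_le_card (fun a ha => ?_)
    rw [Fintype.mem_piFinset] at ha
    exact (@Finset.mem_filter _ _ (_) _ _).2 ⟨Finset.mem_univ _, ha⟩
  · rw [hcard, hcardX]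
    have hP : 0 < p ^ n := Nat.pow_pos (by omega)
    have h1 := half_pow (Nat.pow_le_pow_left hpq n) hP hm1 (n * K)
    have h2 : K ^ n < 2 ^ (n * K) := by
      rw [mul_comm, pow_mul]
      exact Nat.pow_lt_pow_left K.lt_two_pow_self (by omega)
    rcases Nat.eq_zero_or_pos ((p ^ n - q ^ n) ^ (m * (n * K))) with h3 | h3
    · rw [h3, mul_zero]
      exact Nat.pow_pos hP
    · calc K ^ n * (p ^ n - q ^ n) ^ (m * (n * K)) <
          2 ^ (n * K) * (p ^ n - q ^ n) ^ (m * (n * K)) := Nat.mul_lt_mul_of_pos_right h2 h3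
        _ ≤ _ := h1

end Pool.Agent.helper67.KN
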